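import Pool.Agent.H475R2.F3

/-!
# The supercongruence for `C(2k,k)^2 C(3k,k) / (-192)^k` modulo `p ^ 2`
-/

set_option autoImplicit false

namespace Pool.Agent.Results.MP_096b72_nt.QTwoFull

/-- `A ≡ B (mod p^m)` for rational numbers: `A - B = p^m r` with the denominator of `r` prime
to `p`. -/
def Congr (p m : ℕ) (A B : ℚ) : Prop := ∃ r : ℚ, A - B = (p : ℚ) ^ m * r ∧ ¬ p ∣ r.den

/-- The sum `S_p = ∑_{k=0}^{p-1} C(2k,k)^2 C(3k,k) / (-192)^k`. -/
def S (p : ℕ) : ℚ :=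
  ∑ k ∈ Finset.range p, ((Nat.choose (2 * k) k : ℚ) ^ 2 * (Nat.choose (3 * k) k : ℚ)) / (-192 : ℚ) ^ k

theorem S_eq (p : ℕ) : S p = ∑ k ∈ Finset.range p, (H475R2.u3 k : ℚ) / ((-192 : ℤ) : ℚ) ^ k := by
  unfold S H475R2.u3
  apply Finset.sum_congr rfl
  intro k _
  push_cast
  rfl

theorem result (p : ℕ) (hpp : p.Prime) (hp3 : 3 < p) :
    (p % 3 = 1 → ∀ x y : ℤ, 4 * (p : ℤ) = x ^ 2 + 27 * y ^ 2 →
      Congr p 2 (S p) ((x ^ 2 - 2 * p : ℤ) : ℚ)) ∧
    (p % 3 = 2 → Congr p 2 (S p) 0) := by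
  have hp : Fact p.Prime := ⟨hpp⟩
  have hp5 : 5 ≤ p := by
    rcases Nat.lt_or_ge p 5 with h | h
    · have h4 : p = 4 := by omega
      rw [h4] at hpp
      exact absurd hpp (by decide)
    · exact h
  have h8 : ¬ (p : ℤ) ∣ -192 := by
    intro hd
    have h0 : (p : ℤ) ∣ ((192 : ℕ) : ℤ) := by
      have := (dvd_neg).2 hd
      norm_num at this ⊢
      exact this
    have h1 : p ∣ 2 ^ 6 * 3 := by exact_mod_cast h0
    rcases (Nat.Prime.dvd_mul hpp).1 h1 with h2 | h2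
    · have := Nat.le_of_dvd (by norm_num) (hpp.dvd_of_dvd_pow h2)
      omega
    · have := Nat.le_of_dvd (by norm_num) h2
      omega
  obtain ⟨mi, hmi⟩ := (H475R2.isUnit_intCast (p := p) h8).exists_right_inv
  have hmi' : (-192 : ℤ_[p]) * mi = 1 := by push_cast at hmi; exact hmi
  constructor
  · intro _ x y hxy
    have := H475R2.to_rat h8 hmi (H475R2.split192 hp5 hxy hmi')
    rw [S_eq]
    exact this
  · intro h
    have h1 := H475R2.inert192 hp5 h hmi'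
    have := H475R2.to_rat (tgt := 0) h8 hmi (by push_cast; rw [sub_zero]; exact h1)
    rw [S_eq]
    push_cast at this ⊢
    exact this

end Pool.Agent.Results.MP_096b72_nt.QTwoFull
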